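import Pool.Agent.TH505.HR.Ind

/-! Flows by letters outside a piece with at most three ends extend to the piece. -/

set_option autoImplicit false

open Finset

namespace Pool.Agent.TH505.HR

open Pool.Agent.TH505.HF
open Pool.Agent.TH505.OW (PM fc pa pb Rel pm_facts cut bd Ord mem_cut ord_card ord_perm Tr mg mg_in
  mg_out cut_mg dl dl_ne bd_dl size_pos prune W0 W2)

variable {V E : Type} [Fintype E]

theorem dl_self (a : V) : dl a a = 1 := by
  unfold Pool.Agent.TH505.OW.dl
  rw [if_pos rfl]

theorem bd_cut (s t : E → V) (φ : E → ℤ) (u : V) : bd s t φ u =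
    ∑ e ∈ cut s t {u}, (open Classical in if s e = u then φ e else - φ e) := by
  classical
  rw [bd_dl, ← Finset.sum_subset (Finset.subset_univ (cut s t {u}))]
  · refine Finset.sum_congr rfl fun e he => ?_
    rw [mem_cut] at he
    simp only [Set.mem_singleton_iff] at he
    by_cases h1 : s e = u
    · have h2 : t e ≠ u := fun h => he ⟨fun _ => h, fun _ => h1⟩
      rw [if_pos h1, h1, dl_self, dl_ne h2]; ring
    · have h2 : t e = u := by
        by_contra h
        exact he ⟨fun h' => absurd h' h1, fun h' => absurd h' h⟩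
      rw [if_neg h1, h2, dl_self, dl_ne h1]; ring
  · intro e _ he
    rw [mem_cut, not_not] at he
    simp only [Set.mem_singleton_iff] at he
    by_cases h1 : s e = u
    · rw [h1, he.1 h1, sub_self, mul_zero]
    · rw [dl_ne h1, dl_ne (fun h => h1 (he.2 h)), sub_self, mul_zero]

/-- The flow through a cut. -/
theorem cutsum (s t : E → V) (φ : E → ℤ) (X : Set V) (m : ℤ)
    (h : ∀ v, v ∉ X → m ∣ bd s t φ v) :
    m ∣ ∑ e ∈ cut s t X, (open Classical in if s e ∉ X then φ e else - φ e) := by
  classical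
  obtain ⟨S, hS⟩ : ∃ S : Finset V, S = ((univ : Finset E).image s ∪
    (univ : Finset E).image t).filter (fun v => v ∉ X) := ⟨_, rfl⟩
  have h1 : m ∣ ∑ v ∈ S, bd s t φ v := by
    refine Finset.dvd_sum fun v hv => h v ?_
    rw [hS, Finset.mem_filter] at hv
    exact hv.2
  have hin : ∀ a ∈ (univ : Finset E).image s ∪ (univ : Finset E).image t,
      ∑ v ∈ S, dl a v = if a ∉ X then 1 else 0 := by
    intro a ha
    unfold Pool.Agent.TH505.OW.dl
    rw [Finset.sum_ite_eq S a (fun _ => (1 : ℤ))]
    by_cases haX : a ∉ X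
    · rw [if_pos haX, if_pos]
      rw [hS, Finset.mem_filter]
      exact ⟨ha, haX⟩
    · rw [if_neg haX, if_neg]
      rw [hS, Finset.mem_filter]
      exact fun h => haX h.2
  have h2 : ∑ v ∈ S, bd s t φ v = ∑ e ∈ cut s t X, (if s e ∉ X then φ e else - φ e) := by
    simp only [bd_dl]
    rw [Finset.sum_comm]
    have h3 : ∀ e, ∑ v ∈ S, φ e * (dl (s e) v - dl (t e) v) =
        φ e * ((if s e ∉ X then 1 else 0) - (if t e ∉ X then 1 else 0)) := by
      intro e
      rw [← Finset.mul_sum, Finset.sum_sub_distrib, hin (s e) (by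
        rw [Finset.mem_union]; exact Or.inl (Finset.mem_image_of_mem s (Finset.mem_univ e))),
        hin (t e) (by
        rw [Finset.mem_union]; exact Or.inr (Finset.mem_image_of_mem t (Finset.mem_univ e)))]
    rw [Finset.sum_congr rfl (fun e _ => h3 e),
      ← Finset.sum_subset (Finset.subset_univ (cut s t X))]
    · refine Finset.sum_congr rfl fun e he => ?_
      rw [mem_cut] at he
      by_cases h4 : s e ∈ X
      · have h5 : t e ∉ X := fun h => he ⟨fun _ => h, fun _ => h4⟩
        simp only [h4, h5, not_true, not_false_iff, if_true, if_false]; ring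
      · have h5 : t e ∈ X := by
          by_contra h
          exact he ⟨fun h' => absurd h' h4, fun h' => absurd h' h⟩
        simp only [h4, h5, not_true, not_false_iff, if_true, if_false]; ring
    · intro e _ he
      rw [mem_cut, not_not] at he
      by_cases h4 : s e ∈ X
      · have h5 := he.1 h4
        simp only [h4, h5, not_true, if_false]; ring
      · have h5 : t e ∉ X := fun h => h4 (he.2 h)
        simp only [h4, h5, not_false_iff, if_true]; ring
  rw [← h2]
  exact h1

theorem inj_all : ((List.range 11).all fun x => (List.range 11).all fun y =>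
    !(decide (lv x = lv y)) || !(decide ((cc x - cc y) % 2 = 0)) || decide (x = y)) = true := by
  decide +kernel

theorem letter_inj (x y : ℕ) (hx : x < 11) (hy : y < 11) (h1 : lv x = lv y)
    (h2 : (2 : ℤ) ∣ cc x - cc y) : x = y := by
  have h := (List.all_eq_true.1 ((List.all_eq_true.1 inj_all) x
    (List.mem_range.2 hx))) y (List.mem_range.2 hy)
  have h3 : (cc x - cc y) % 2 = 0 := Int.emod_eq_zero_of_dvd h2
  rw [decide_eq_true h1, decide_eq_true h3] at h
  simpa using h

theorem width_sub (s t s' t' : E → V) (X : Set V)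
    (h : ∀ Z : Set V, Z ⊆ X → cut s' t' Z = cut s t Z) (w : ℕ) :
    ∀ U : Tr V, U.set ⊆ X → U.Width s t w → U.Width s' t' w := by
  intro U
  induction U with
  | leaf v =>
    intro hU hW
    show (cut s' t' {v}).card ≤ w
    rw [h {v} hU]
    exact hW
  | node l r ihl ihr =>
    intro hU hW
    refine ⟨?_, ihl (fun z hz => hU (Or.inl hz)) hW.2.1, ihr (fun z hz => hU (Or.inr hz)) hW.2.2⟩
    rw [h (l.set ∪ r.set) hU]
    exact hW.1

/-- The piece `T.set` with at most three ends: prescribed letters at the ends. -/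
theorem ends_ext (s t : E → V) (T : Tr V) (hN : T.Nodup) (hW : T.Width s t 5)
    (hbr : ∀ Z : Set V, (cut s t Z).card ≠ 1) (h3 : (cut s t T.set).card ≤ 3) (u : V)
    (hu : u ∉ T.set) (g : E → ℕ) (hg : ∀ e ∈ cut s t T.set, g e < 11)
    (hc1 : ∀ v, v ∉ T.set → bd s t (fun e => lv (g e)) v = 0)
    (hc2 : ∀ v, v ∉ T.set → (2 : ℤ) ∣ bd s t (fun e => cc (g e)) v) :
    ∃ f : E → ℕ, Good (mg (T.set ∪ {u}) u ∘ s) (mg (T.set ∪ {u}) u ∘ t) f (T.set ∪ {u}) ∧
      ∀ e ∈ cut s t T.set, f e = g e := by
  classical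
  obtain ⟨X, hX⟩ : ∃ X, X = T.set := ⟨_, rfl⟩
  rw [← hX] at h3 hu hg hc1 hc2 ⊢
  obtain ⟨s', hs'⟩ : ∃ s', s' = mg (X ∪ {u}) u ∘ s := ⟨_, rfl⟩
  obtain ⟨t', ht'⟩ : ∃ t', t' = mg (X ∪ {u}) u ∘ t := ⟨_, rfl⟩
  rw [← hs', ← ht']
  have hmi : ∀ z, z ∈ X → mg (X ∪ {u}) u z = z := fun z hz => mg_in (Or.inl hz)
  have hmo : ∀ z, z ∉ X → mg (X ∪ {u}) u z = u := by
    intro z hz
    by_cases h : z = u
    · rw [h]; exact mg_in (Or.inr rfl)
    · exact mg_out (fun h1 => h1.elim hz (fun h2 => h h2))
  have hmu : ∀ z, mg (X ∪ {u}) u z = u ↔ z ∉ X := by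
    intro z
    constructor
    · intro h hz
      rw [hmi z hz] at h
      exact hu (h ▸ hz)
    · exact hmo z
  have hcs : ∀ Z : Set V, Z ⊆ X → cut s' t' Z = cut s t Z := by
    intro Z hZ
    rw [hs', ht', cut_mg]
    congr 1
    ext z
    rw [Set.mem_preimage]
    by_cases hz : z ∈ X
    · rw [hmi z hz]
    · rw [hmo z hz]
      exact ⟨fun h => absurd (hZ h) hu, fun h => absurd (hZ h) hz⟩
  have hcu : cut s' t' {u} = cut s t X := by
    rw [hs', ht', cut_mg]
    ext e
    rw [mem_cut, mem_cut]
    simp only [Set.mem_preimage, Set.mem_singleton_iff, hmu]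
    tauto
  have hA : ∀ z, mg (X ∪ {u}) u z ∈ X ∪ {u} := by
    intro z
    by_cases hz : z ∈ X
    · rw [hmi z hz]; exact Or.inl hz
    · rw [hmo z hz]; exact Or.inr rfl
  have hcA : cut s' t' (X ∪ {u}) = ∅ := by
    ext e
    rw [mem_cut, hs', ht']
    simp only [Function.comp_apply, hA, Finset.notMem_empty, iff_false, not_true, not_false_iff,
      iff_self]
  have hE' : ∀ e, s' e ∈ X ∪ {u} ∧ t' e ∈ X ∪ {u} := by
    intro e
    rw [hs', ht']
    exact ⟨hA _, hA _⟩
  have hbr' : ∀ Z : Set V, (cut s' t' Z).card ≠ 1 := by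
    intro Z
    rw [hs', ht', cut_mg]
    exact hbr _
  obtain ⟨T', hT'⟩ : ∃ T' : Tr V, T' = .node T (.leaf u) := ⟨_, rfl⟩
  have hTs : T'.set = X ∪ {u} := by rw [hT', hX]; rfl
  have hN' : T'.Nodup := by
    rw [hT']
    refine ⟨?_, hN, trivial⟩
    rw [← hX]
    exact Set.disjoint_singleton_right.2 hu
  have hW' : T'.Width s' t' 5 := by
    rw [hT']
    refine ⟨?_, ?_, ?_⟩
    · show (cut s' t' (T.set ∪ {u})).card ≤ 5
      rw [← hX, hcA]
      simp
    · exact width_sub s t s' t' X hcs 5 T (by rw [hX]) hW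
    · show (cut s' t' {u}).card ≤ 5
      rw [hcu]
      omega
  have hsu : ∀ e, s' e = u ↔ s e ∉ X := by
    intro e
    rw [hs']
    exact hmu _
  have hov : ∀ e, ov s' {u} g e = if s e ∉ X then g e else sw (g e) := by
    intro e
    unfold ov
    simp only [Set.mem_singleton_iff]
    by_cases h : s e ∉ X
    · rw [if_pos ((hsu e).2 h), if_pos h]
    · rw [if_neg (fun h1 => h ((hsu e).1 h1)), if_neg h]
  have q1 : ∑ e ∈ cut s t X, lv (ov s' {u} g e) = 0 := by
    have h := cutsum s t (fun e => lv (g e)) X 0 (fun v hv => by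
      rw [hc1 v hv])
    rw [zero_dvd_iff] at h
    rw [← h]
    refine Finset.sum_congr rfl fun e he => ?_
    rw [hov]
    by_cases h5 : s e ∉ X
    · rw [if_pos h5, if_pos h5]
    · rw [if_neg h5, if_neg h5]
      exact lv_sw _ (hg e he)
  have q2 : (2 : ℤ) ∣ ∑ e ∈ cut s t X, cc (g e) := by
    have h := cutsum s t (fun e => cc (g e)) X 2 hc2
    have h1 : (2 : ℤ) ∣ ∑ e ∈ cut s t X, cc (g e) -
        ∑ e ∈ cut s t X, (if s e ∉ X then cc (g e) else - cc (g e)) := by
      rw [← Finset.sum_sub_distrib]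
      refine Finset.dvd_sum fun e _ => ?_
      by_cases h5 : s e ∉ X
      · rw [if_pos h5, sub_self]; exact dvd_zero _
      · rw [if_neg h5]; exact ⟨cc (g e), by ring⟩
    have h2 := dvd_add h1 h
    rw [sub_add_cancel] at h2
    exact h2
  have h4 : (cut s t X).card = 0 ∨ (cut s t X).card = 2 ∨ (cut s t X).card = 3 := by
    have := hbr X
    omega
  rcases h4 with h4 | h4 | h4
  · rw [Finset.card_eq_zero] at h4
    by_cases hne : Nonempty E
    · obtain ⟨e⟩ := hne
      obtain ⟨f, hf, -⟩ := main_ind T'.size s' t' T' le_rfl hN' hW' (by rw [hTs]; exact hE') hbr'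
        e 0 (by norm_num)
      rw [hTs] at hf
      exact ⟨f, hf, fun e he => by rw [h4] at he; exact absurd he (Finset.notMem_empty e)⟩
    · rw [not_nonempty_iff] at hne
      exact ⟨_, good_const s' t' _ (fun e => hne.elim e), fun e => hne.elim e⟩
  · obtain ⟨e1, e2, hne, hcut⟩ := Finset.card_eq_two.1 h4
    have m1 : e1 ∈ cut s t X := by rw [hcut]; simp
    have m2 : e2 ∈ cut s t X := by rw [hcut]; simp
    obtain ⟨f, hf, hf1⟩ := main_ind T'.size s' t' T' le_rfl hN' hW' (by rw [hTs]; exact hE') hbr'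
      e1 (g e1) (hg e1 m1)
    rw [hTs] at hf
    have r := hf.2 u (Or.inr rfl)
    rw [bd_cut, bd_cut, hcu, hcut, Finset.sum_pair hne, Finset.sum_pair hne] at r
    have p1 := cutsum s t (fun e => lv (g e)) X 0 (fun v hv => by rw [hc1 v hv])
    rw [zero_dvd_iff, hcut, Finset.sum_pair hne] at p1
    have p2 := cutsum s t (fun e => cc (g e)) X 2 hc2
    rw [hcut, Finset.sum_pair hne] at p2
    simp only [hsu, hf1] at r
    have hfe : f e2 = g e2 := by
      refine letter_inj _ _ (hf.1 e2) (hg e2 m2) ?_ ?_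
      · have r1 := r.1
        by_cases a1 : s e1 ∈ X <;> by_cases a2 : s e2 ∈ X <;>
          simp only [a1, a2, not_true, not_false_iff, if_true, if_false] at r1 p1 <;> linarith
      · have r2 := r.2
        by_cases a1 : s e1 ∈ X <;> by_cases a2 : s e2 ∈ X <;>
          simp only [a1, a2, not_true, not_false_iff, if_true, if_false] at r2 p2 <;> omega
    refine ⟨f, hf, fun e he => ?_⟩
    rw [hcut, Finset.mem_insert, Finset.mem_singleton] at he
    rcases he with rfl | rfl
    · exact hf1
    · exact hfe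
  · obtain ⟨f, hf, hf1⟩ := vert_ind T'.size s' t' T' le_rfl hN' hW' (by rw [hTs]; exact hE') hbr'
      u (by rw [hTs]; exact Or.inr rfl) (by rw [hcu]; exact h4) g (by rw [hcu]; exact hg)
      (by rw [hcu]; exact q1) (by rw [hcu]; exact q2)
    rw [hTs] at hf
    rw [hcu] at hf1
    exact ⟨f, hf, hf1⟩

/-- A flow by letters outside a piece with at most three ends extends to the piece. -/
theorem ext (s t : E → V) (T : Tr V) (hN : T.Nodup) (hW : T.Width s t 5)
    (hbr : ∀ Z : Set V, (cut s t Z).card ≠ 1) (h3 : (cut s t T.set).card ≤ 3)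
    (g : E → ℕ) (hg : ∀ e, ¬ (s e ∈ T.set ∧ t e ∈ T.set) → g e < 11)
    (hc1 : ∀ v, v ∉ T.set → bd s t (fun e => lv (g e)) v = 0)
    (hc2 : ∀ v, v ∉ T.set → (2 : ℤ) ∣ bd s t (fun e => cc (g e)) v) :
    ∃ f : E → ℕ, Good s t f Set.univ ∧ ∀ e, ¬ (s e ∈ T.set ∧ t e ∈ T.set) → f e = g e := by
  classical
  by_cases hex : ∃ u, u ∉ T.set
  · obtain ⟨u, hu⟩ := hex
    obtain ⟨f, hf, hfg⟩ := ends_ext s t T hN hW hbr h3 u hu g (fun e he => hg e (fun h => by
      rw [mem_cut] at he
      exact he ⟨fun _ => h.2, fun _ => h.1⟩)) hc1 hc2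
    refine ⟨fun e => if s e ∈ T.set ∧ t e ∈ T.set then f e else g e, ⟨fun e => ?_,
      fun v _ => ?_⟩, fun e he => if_neg he⟩
    · dsimp only
      split_ifs with h
      · exact hf.1 e
      · exact hg e h
    · by_cases hv : v ∈ T.set
      · have key : ∀ c : ℕ → ℤ, bd s t (fun e => c (if s e ∈ T.set ∧ t e ∈ T.set then f e
            else g e)) v = bd (mg (T.set ∪ {u}) u ∘ s) (mg (T.set ∪ {u}) u ∘ t)
              (fun e => c (f e)) v := by
          intro c
          rw [bd_dl, bd_dl]
          refine Finset.sum_congr rfl fun e _ => ?_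
          have hm : ∀ z, dl (mg (T.set ∪ {u}) u z) v = dl z v := by
            intro z
            by_cases hz : z ∈ T.set ∪ {u}
            · rw [mg_in hz]
            · rw [mg_out hz, dl_ne (fun h : u = v => hu (h ▸ hv)),
                dl_ne (fun h : z = v => hz (h ▸ Or.inl hv))]
          simp only [Function.comp_apply, hm]
          by_cases h : s e ∈ T.set ∧ t e ∈ T.set
          · rw [if_pos h]
          · rw [if_neg h]
            by_cases h1 : s e = v ∨ t e = v
            · rw [hfg e]
              rw [mem_cut]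
              intro h2
              rcases h1 with h1 | h1
              · have : s e ∈ T.set := by rw [h1]; exact hv
                exact h ⟨this, h2.1 this⟩
              · have : t e ∈ T.set := by rw [h1]; exact hv
                exact h ⟨h2.2 this, this⟩
            · push Not at h1
              rw [dl_ne h1.1, dl_ne h1.2, sub_self, mul_zero, mul_zero]
        rw [key lv, key cc]
        exact hf.2 v (Or.inl hv)
      · have key : ∀ c : ℕ → ℤ, bd s t (fun e => c (if s e ∈ T.set ∧ t e ∈ T.set then f e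
            else g e)) v = bd s t (fun e => c (g e)) v := by
          intro c
          refine bd_congr s t _ _ v fun e he => ?_
          rw [if_neg]
          rintro ⟨h1, h2⟩
          rcases he with he | he
          · exact hv (he ▸ h1)
          · exact hv (he ▸ h2)
        rw [key lv, key cc]
        exact ⟨hc1 v hv, hc2 v hv⟩
  · push Not at hex
    have hT : T.set = Set.univ := Set.eq_univ_of_forall hex
    by_cases hne : Nonempty E
    · obtain ⟨e⟩ := hne
      obtain ⟨f, hf, -⟩ := main s t T hT hN hW hbr e 0 (by norm_num)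
      exact ⟨f, hf, fun e he => absurd ⟨hex _, hex _⟩ he⟩
    · rw [not_nonempty_iff] at hne
      exact ⟨_, good_const s t _ (fun e => hne.elim e), fun e => hne.elim e⟩

end Pool.Agent.TH505.HR
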