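import Pool.Agent.TH505.HR.Ext
import Pool.Agent.TH505.HF.Fin

/-! `1/2`-flow-pairs of `G / X` extend to `G` if `X` is a piece of carving width at most five with at
most three outgoing edges. -/

set_option autoImplicit false

open Finset

namespace Pool.Agent.TH505.HR

open Pool.Agent.TH505.HF
open Pool.Agent.TH505.OW (cut bd mem_cut Tr)
open Pool.Agent.H160R2.HF (OrGraph)

variable {V E : Type}

open Classical in
/-- The vertex of `G / X` that corresponds to the vertex `v` of `G`; the vertices in `X` are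
identified (vertex `none`). -/
noncomputable def proj (X : Set V) (v : V) : Option {v : V // v ∉ X} :=
  if h : v ∈ X then none else some ⟨v, h⟩

/-- The graph `G / X`: the vertices in `X` are identified. The edges are those of `G`; the edges with
both ends in `X` become loops. -/
noncomputable def con (G : OrGraph V E) (X : Set V) : OrGraph (Option {v : V // v ∉ X}) E :=
  ⟨fun e => proj X (G.t e), fun e => proj X (G.h e)⟩

theorem proj_some (X : Set V) (v w : V) (hv : v ∉ X) : proj X w = some ⟨v, hv⟩ ↔ w = v := by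
  unfold proj
  split_ifs with h
  · constructor
    · intro h1; simp at h1
    · rintro rfl; exact absurd h hv
  · simp

variable [Fintype E]

theorem bd_zero [DecidableEq V] (G : OrGraph V E) (φ : E → ℤ) :
    G.IsFlow φ ↔ ∀ v, bd G.t G.h φ v = 0 := by
  unfold OrGraph.IsFlow
  refine forall_congr' fun v => ?_
  rw [bd_sum, sub_eq_zero]

theorem con_flow [DecidableEq V] (G : OrGraph V E) (X : Set V) (φ : E → ℤ)
    (h : (con G X).IsFlow φ) (v : V) (hv : v ∉ X) : bd G.t G.h φ v = 0 := by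
  have h1 := h (some ⟨v, hv⟩)
  rw [bd_sum, sub_eq_zero]
  have h2 : ∀ (p : E → V), (∑ e with proj X (p e) = some ⟨v, hv⟩, φ e) =
      ∑ e with p e = v, φ e := by
    intro p
    refine Finset.sum_congr ?_ fun _ _ => rfl
    ext e
    simp only [Finset.mem_filter, Finset.mem_univ, true_and, proj_some]
  have h3 : (∑ e with proj X (G.t e) = some ⟨v, hv⟩, φ e) =
      ∑ e with proj X (G.h e) = some ⟨v, hv⟩, φ e := h1
  rw [h2, h2] at h3
  exact h3

omit [Fintype E] in
theorem sign_cut [DecidableEq E] (C : Finset E) (hC : C.card ≤ 3) (σ φ ψ : E → ℤ)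
    (hσ : ∀ e ∈ C, σ e = 1 ∨ σ e = -1)
    (h1 : ∀ e ∈ C, -1 ≤ φ e ∧ φ e ≤ 1) (h2 : ∀ e ∈ C, -1 ≤ ψ e ∧ ψ e ≤ 1)
    (h3 : ∀ e ∈ C, (φ e = 0 ↔ ψ e = 0)) (h4 : ∑ e ∈ C, σ e * φ e = 0)
    (h5 : ∑ e ∈ C, σ e * ψ e = 0) :
    (∀ e ∈ C, φ e = ψ e) ∨ (∀ e ∈ C, φ e = - ψ e) := by
  rcases (show C.card = 0 ∨ C.card = 1 ∨ C.card = 2 ∨ C.card = 3 by omega) with h | h | h | h
  · rw [Finset.card_eq_zero] at h
    subst h
    exact Or.inl fun e he => absurd he (Finset.notMem_empty e)
  · obtain ⟨a, rfl⟩ := Finset.card_eq_one.1 h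
    simp only [Finset.sum_singleton] at h4 h5
    simp only [Finset.mem_singleton, forall_eq] at hσ h1 h2 h3 ⊢
    rcases hσ with hσ | hσ <;> rw [hσ] at h4 h5 <;> omega
  · obtain ⟨a, b, hab, rfl⟩ := Finset.card_eq_two.1 h
    rw [Finset.sum_pair hab] at h4 h5
    simp only [Finset.mem_insert, Finset.mem_singleton, forall_eq_or_imp, forall_eq]
      at hσ h1 h2 h3 ⊢
    obtain ⟨sa, sb⟩ := hσ
    rcases sa with sa | sa <;> rcases sb with sb | sb <;> rw [sa, sb] at h4 h5 <;> omega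
  · obtain ⟨a, b, c, hab, hac, hbc, rfl⟩ := Finset.card_eq_three.1 h
    rw [Finset.sum_insert (by simp [hab, hac]), Finset.sum_pair hbc] at h4 h5
    simp only [Finset.mem_insert, Finset.mem_singleton, forall_eq_or_imp, forall_eq]
      at hσ h1 h2 h3 ⊢
    obtain ⟨sa, sb, sc⟩ := hσ
    rcases sa with sa | sa <;> rcases sb with sb | sb <;> rcases sc with sc | sc <;>
      rw [sa, sb, sc] at h4 h5 <;> omega

/-- Extension of `1/2`-flow-pairs. -/
theorem ext_pair [Fintype V] [DecidableEq V] [DecidableEq E] (G : OrGraph V E)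
    (hG : G.Bridgeless) (T : Tr V) (hN : T.Nodup) (hW : T.Width G.t G.h 5)
    (h3 : (cut G.t G.h T.set).card ≤ 3) (φ₂ φ₄ : E → ℤ)
    (h : (con G T.set).IsHalfFlowPair φ₂ φ₄) :
    ∃ ψ₂ ψ₄, G.IsHalfFlowPair ψ₂ ψ₄ ∧
      ∀ e, ¬ (G.t e ∈ T.set ∧ G.h e ∈ T.set) → ψ₂ e = φ₂ e ∧ ψ₄ e = φ₄ e := by
  classical
  obtain ⟨⟨a1, a2⟩, ⟨b1, b2⟩, hz⟩ := h
  have a1' : ∀ e, |φ₂ e| ≤ 1 := fun e => by have := a1 e; norm_num at this; exact this
  have b1' : ∀ e, |φ₄ e| ≤ 3 := fun e => by have := b1 e; norm_num at this; exact this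
  have hlet : ∀ e, ∃ x < 11, lv x = φ₄ e ∧ (x < 7 ↔ φ₂ e ≠ 0) :=
    fun e => exists_letter (φ₂ e) (φ₄ e) (a1' e) (b1' e) (hz e)
  choose g g1 g2 g3 using hlet
  have f2 := con_flow G T.set φ₂ a2
  have f4 := con_flow G T.set φ₄ b2
  have hpar : ∀ e, (2 : ℤ) ∣ cc (g e) - φ₂ e := by
    intro e
    have h5 := letter_facts (g e) (g1 e)
    have h6 := abs_le.1 (a1' e)
    by_cases h7 : φ₂ e = 0
    · rw [(h5.2.2 (fun h8 => (g3 e).1 h8 h7)).1, h7]
      exact ⟨0, by ring⟩
    · rw [h5.2.1 ((g3 e).2 h7)]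
      have h8 : φ₂ e = 1 ∨ φ₂ e = -1 := by omega
      rcases h8 with h8 | h8 <;> rw [h8]
      · exact ⟨0, by ring⟩
      · exact ⟨1, by ring⟩
  obtain ⟨f, hf, hfg⟩ := ext G.t G.h T hN hW (no_one G hG) h3 g (fun e _ => g1 e)
    (fun v hv => by
      rw [show (fun e => lv (g e)) = φ₄ from funext g2]
      exact f4 v hv)
    (fun v hv => by
      have h5 : (2 : ℤ) ∣ bd G.t G.h (fun e => cc (g e)) v - bd G.t G.h φ₂ v := by
        unfold Pool.Agent.TH505.OW.bd
        rw [← Finset.sum_sub_distrib]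
        refine Finset.dvd_sum fun e _ => ?_
        rw [← sub_mul]
        exact dvd_mul_of_dvd_left (hpar e) _
      rw [f2 v hv, sub_zero] at h5
      exact h5)
  obtain ⟨ψ0, hψ0, p1, p2⟩ := of_good G f hf
  have hcutout : ∀ e ∈ cut G.t G.h T.set, ¬ (G.t e ∈ T.set ∧ G.h e ∈ T.set) := by
    intro e he h5
    rw [mem_cut] at he
    exact he ⟨fun _ => h5.2, fun _ => h5.1⟩
  have hsupp : ∀ e, ¬ (G.t e ∈ T.set ∧ G.h e ∈ T.set) → (φ₂ e = 0 ↔ ψ0 e = 0) := by
    intro e he
    have h5 := hfg e he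
    have h6 := hψ0 e
    rw [h5] at h6
    constructor
    · intro h7
      exact h6.2 (fun h8 => (g3 e).1 h8 h7)
    · intro h7
      by_contra h8
      rcases h6.1 ((g3 e).2 h8) with h9 | h9 <;> rw [h9] at h7 <;> norm_num at h7
  have q0 := (bd_zero G ψ0).1 p1.1.2
  have hr : ∀ e, -1 ≤ ψ0 e ∧ ψ0 e ≤ 1 := by
    intro e
    have h5 := p1.1.1 e
    norm_num at h5
    exact abs_le.1 h5
  have hsig := sign_cut (cut G.t G.h T.set) h3 (fun e => if G.t e ∉ T.set then 1 else -1) φ₂ ψ0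
    (fun e _ => by
      by_cases h5 : G.t e ∉ T.set
      · exact Or.inl (if_pos h5)
      · exact Or.inr (if_neg h5))
    (fun e _ => abs_le.1 (a1' e)) (fun e _ => hr e) (fun e he => hsupp e (hcutout e he))
    (by
      have h5 := cutsum G.t G.h φ₂ T.set 0 (fun v hv => by rw [f2 v hv])
      rw [zero_dvd_iff] at h5
      rw [← h5]
      refine Finset.sum_congr rfl fun e _ => ?_
      by_cases h6 : G.t e ∉ T.set
      · rw [if_pos h6, if_pos h6]; ring
      · rw [if_neg h6, if_neg h6]; ring)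
    (by
      have h5 := cutsum G.t G.h ψ0 T.set 0 (fun v _ => by rw [q0 v])
      rw [zero_dvd_iff] at h5
      rw [← h5]
      refine Finset.sum_congr rfl fun e _ => ?_
      by_cases h6 : G.t e ∉ T.set
      · rw [if_pos h6, if_pos h6]; ring
      · rw [if_neg h6, if_neg h6]; ring)
  obtain ⟨ψ, hψ, hψc⟩ : ∃ ψ, G.IsHalfFlowPair ψ (fun e => lv (f e)) ∧
      ∀ e ∈ cut G.t G.h T.set, φ₂ e = ψ e := by
    rcases hsig with h5 | h5
    · exact ⟨ψ0, p1, h5⟩
    · exact ⟨fun e => - ψ0 e, p2, h5⟩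
  obtain ⟨⟨c1, c2⟩, c3, c4⟩ := hψ
  have q1 := (bd_zero G ψ).1 c2
  refine ⟨fun e => if G.t e ∈ T.set ∧ G.h e ∈ T.set then ψ e else φ₂ e, fun e => lv (f e),
    ⟨⟨fun e => ?_, ?_⟩, c3, fun e he => ?_⟩, fun e he => ⟨if_neg he, ?_⟩⟩
  · dsimp only
    split_ifs
    · exact c1 e
    · exact a1 e
  · rw [bd_zero]
    intro v
    by_cases hv : v ∈ T.set
    · rw [← q1 v]
      refine bd_congr _ _ _ _ v fun e he => ?_
      by_cases h5 : G.t e ∈ T.set ∧ G.h e ∈ T.set
      · rw [if_pos h5]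
      · rw [if_neg h5]
        refine hψc e ?_
        rw [mem_cut]
        intro h6
        rcases he with he | he
        · have h7 : G.t e ∈ T.set := by rw [he]; exact hv
          exact h5 ⟨h7, h6.1 h7⟩
        · have h7 : G.h e ∈ T.set := by rw [he]; exact hv
          exact h5 ⟨h6.2 h7, h7⟩
    · rw [← f2 v hv]
      refine bd_congr _ _ _ _ v fun e he => ?_
      rw [if_neg]
      rintro ⟨h5, h6⟩
      rcases he with he | he
      · exact hv (he ▸ h5)
      · exact hv (he ▸ h6)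
  · dsimp only at he
    split_ifs at he with h5
    · exact c4 e he
    · show 2 ≤ |lv (f e)|
      rw [hfg e h5, g2 e]
      exact hz e he
  · show lv (f e) = φ₄ e
    rw [hfg e he, g2 e]

theorem con_bridgeless [DecidableEq E] (G : OrGraph V E) (X : Set V) (hG : G.Bridgeless) :
    (con G X).Bridgeless := by
  intro e
  have key : ∀ a b, (G.sub (univ.erase e)).Reachable a b →
      ((con G X).sub (univ.erase e)).Reachable (proj X a) (proj X b) := by
    rintro a b ⟨p⟩
    induction p with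
    | nil => exact SimpleGraph.Reachable.refl _
    | @cons a c b h p ih =>
      refine SimpleGraph.Reachable.trans ?_ ih
      by_cases hac : proj X a = proj X c
      · rw [hac]
      · refine SimpleGraph.Adj.reachable ?_
        unfold OrGraph.sub at h ⊢
        rw [SimpleGraph.fromRel_adj] at h ⊢
        refine ⟨hac, ?_⟩
        rcases h.2 with ⟨e', he', h1, h2⟩ | ⟨e', he', h1, h2⟩
        · refine Or.inl ⟨e', he', ?_, ?_⟩
          · show proj X (G.t e') = _
            rw [h1]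
          · show proj X (G.h e') = _
            rw [h2]
        · refine Or.inr ⟨e', he', ?_, ?_⟩
          · show proj X (G.t e') = _
            rw [h1]
          · show proj X (G.h e') = _
            rw [h2]
  exact key _ _ (hG e)

/-- Smallest counterexamples. -/
theorem smallest [Fintype V] [DecidableEq V] [DecidableEq E] (G : OrGraph V E)
    (hG : G.Bridgeless) (hno : ¬ ∃ φ₂ φ₄, G.IsHalfFlowPair φ₂ φ₄)
    (hmin : ∀ (V' E' : Type) [Fintype V'] [Fintype E'] [DecidableEq V'] [DecidableEq E']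
      (H : OrGraph V' E'), H.Bridgeless → Fintype.card V' < Fintype.card V →
      ∃ φ₂ φ₄, H.IsHalfFlowPair φ₂ φ₄)
    (T : Tr V) (hN : T.Nodup) (hW : T.Width G.t G.h 5) (u w : V) (hu : u ∈ T.set)
    (hw : w ∈ T.set) (huw : u ≠ w) : 4 ≤ (cut G.t G.h T.set).card := by
  classical
  by_contra hcon
  obtain ⟨φ₂, φ₄, h⟩ := hmin (Option {v : V // v ∉ T.set}) E (con G T.set)
    (con_bridgeless G _ hG) (by
      rw [Fintype.card_option, Fintype.card_subtype]
      have h1 : (univ.filter (fun v : V => v ∉ T.set)) ⊆ (univ.erase u).erase w := by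
        intro v hv
        rw [Finset.mem_filter] at hv
        rw [Finset.mem_erase, Finset.mem_erase]
        exact ⟨fun h => hv.2 (h ▸ hw), fun h => hv.2 (h ▸ hu), Finset.mem_univ _⟩
      have h2 := Finset.card_le_card h1
      rw [Finset.card_erase_of_mem (by
        rw [Finset.mem_erase]; exact ⟨huw.symm, Finset.mem_univ _⟩),
        Finset.card_erase_of_mem (Finset.mem_univ _), Finset.card_univ] at h2
      have h3 : 2 ≤ Fintype.card V := by
        have := Finset.card_le_univ ({u, w} : Finset V)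
        rw [Finset.card_pair huw] at this
        exact this
      omega)
  obtain ⟨ψ₂, ψ₄, h1, -⟩ := ext_pair G hG T hN hW (by omega) φ₂ φ₄ (by
    convert h)
  exact hno ⟨ψ₂, ψ₄, h1⟩

end Pool.Agent.TH505.HR
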