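import Pool.Agent.TH505.HR.Vert

/-! Prescribed letters at the edges of a vertex of degree three: cuts of size zero and two. -/

set_option autoImplicit false

open Finset

namespace Pool.Agent.TH505.HR

open Pool.Agent.TH505.HF
open Pool.Agent.TH505.OW (PM fc pa pb Rel pm_facts cut bd Ord mem_cut ord_card ord_perm Tr mg mg_in
  mg_out cut_mg dl dl_ne bd_dl size_pos prune W0 W2)

variable {V E : Type} [Fintype E]

theorem vert_ind : ∀ (m : ℕ) (s t : E → V) (T : Tr V), T.size ≤ m → T.Nodup → T.Width s t 5 →
    (∀ e, s e ∈ T.set ∧ t e ∈ T.set) → (∀ Z : Set V, (cut s t Z).card ≠ 1) →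
    ∀ (u : V), u ∈ T.set → (cut s t {u}).card = 3 → ∀ y : E → ℕ,
      (∀ e ∈ cut s t {u}, y e < 11) → ∑ e ∈ cut s t {u}, lv (ov s {u} y e) = 0 →
      (2 : ℤ) ∣ ∑ e ∈ cut s t {u}, cc (y e) →
      ∃ f : E → ℕ, Good s t f T.set ∧ ∀ e ∈ cut s t {u}, f e = y e := by
  classical
  intro m
  induction m with
  | zero =>
    intro s t T hT
    have := size_pos T
    omega
  | succ m ih =>
    intro s t T hT hN hW hE hbr u huT h3 y hy hs1 hs2
    by_cases hsp : ∀ Z : Set V, (∃ v ∈ T.set, v ∈ Z) → (∃ v ∈ T.set, v ∉ Z) →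
        3 ≤ (cut s t Z).card
    · exact vert_three s t T hN hW hE hsp u huT h3 y hy hs1 hs2
    push Not at hsp
    obtain ⟨X, huX, hX2, hX3⟩ : ∃ X : Set V, u ∈ X ∧ (∃ v ∈ T.set, v ∉ X) ∧
        (cut s t X).card < 3 := by
      obtain ⟨X, h1, h2, h4⟩ := hsp
      by_cases huX : u ∈ X
      · exact ⟨X, huX, h2, h4⟩
      · refine ⟨Xᶜ, huX, ?_, ?_⟩
        · obtain ⟨v, hv, hv'⟩ := h1
          exact ⟨v, hv, fun h => h hv'⟩
        · rw [show cut s t Xᶜ = cut s t X from by
            ext e
            rw [mem_cut, mem_cut, Set.mem_compl_iff, Set.mem_compl_iff]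
            tauto]
          exact h4
    have hends : ∀ (Y : Set V) (a : V), a ∈ Y → a ∈ T.set → ∀ z ∈ T.set,
        mg Y a z ∈ T.set ∩ Y := by
      intro Y a ha haT z hz
      by_cases h : z ∈ Y
      · rw [mg_in h]; exact ⟨hz, h⟩
      · rw [mg_out h]; exact ⟨haT, ha⟩
    -- the other side, with a letter at an edge
    have half : ∀ (Y : Set V) (a : V), a ∈ Y → a ∈ T.set →
        (∀ B : Set V, (cut (mg Y a ∘ s) (mg Y a ∘ t) (B ∩ Y)).card ≤ (cut s t B).card) →
        ∀ (e : E) (x : ℕ), x < 11 →
        ∃ f1 : E → ℕ, Good (mg Y a ∘ s) (mg Y a ∘ t) f1 (T.set ∩ Y) ∧ f1 e = x := by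
      intro Y a ha haT hWY e x hx
      obtain ⟨T1, a1, a2, a3, -, -⟩ := prune s t _ _ Y hWY 5 T hN hW ⟨a, haT, ha⟩
      obtain ⟨f1, hf1, hf2⟩ := main_ind T1.size (mg Y a ∘ s) (mg Y a ∘ t) T1 le_rfl a2 a3
        (fun e => by
          rw [a1]
          exact ⟨hends Y a ha haT _ (hE e).1, hends Y a ha haT _ (hE e).2⟩) (fun Z => by
        rw [cut_mg]
        exact hbr _) e x hx
      rw [a1] at hf1
      exact ⟨f1, hf1, hf2⟩
    -- the side of `u`
    have side1 : ∀ (a : V), a ∈ X → a ∈ T.set →
        (∀ B : Set V, (cut (mg X a ∘ s) (mg X a ∘ t) (B ∩ X)).card ≤ (cut s t B).card) →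
        cut (mg X a ∘ s) (mg X a ∘ t) {u} = cut s t {u} →
        (∀ e ∈ cut s t {u}, (mg X a (s e) = u ↔ s e = u)) →
        ∃ f1 : E → ℕ, Good (mg X a ∘ s) (mg X a ∘ t) f1 (T.set ∩ X) ∧
          ∀ e ∈ cut s t {u}, f1 e = y e := by
      intro a ha haT hWY hcu hmu
      obtain ⟨T1, a1, a2, a3, -, a5⟩ := prune s t _ _ X hWY 5 T hN hW ⟨a, haT, ha⟩
      have hlt := a5 hX2
      obtain ⟨f1, hf1, hf2⟩ := ih (mg X a ∘ s) (mg X a ∘ t) T1 (by omega) a2 a3 (fun e => by
        rw [a1]
        exact ⟨hends X a ha haT _ (hE e).1, hends X a ha haT _ (hE e).2⟩) (fun Z => by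
        rw [cut_mg]
        exact hbr _) u (by rw [a1]; exact ⟨huT, huX⟩) (by rw [hcu]; exact h3) y
        (by rw [hcu]; exact hy) (by
          rw [hcu, ← hs1]
          refine Finset.sum_congr rfl fun e he => ?_
          have h5 := hmu e he
          unfold ov
          simp only [Function.comp_apply, Set.mem_singleton_iff]
          by_cases h6 : s e = u
          · rw [if_pos (h5.2 h6), if_pos h6]
          · rw [if_neg (fun h => h6 (h5.1 h)), if_neg h6]) (by rw [hcu]; exact hs2)
      rw [a1] at hf1
      rw [hcu] at hf2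
      exact ⟨f1, hf1, hf2⟩
    have hinc : ∀ e ∈ cut s t {u}, s e = u ∨ t e = u := by
      intro e he
      rw [mem_cut] at he
      by_contra h
      push Not at h
      exact he ⟨fun h1 => absurd h1 h.1, fun h1 => absurd h1 h.2⟩
    have h012 : (cut s t X).card = 0 ∨ (cut s t X).card = 2 := by
      have := hbr X
      omega
    rcases h012 with h0 | h2
    · rw [Finset.card_eq_zero] at h0
      have h0' : ∀ e, s e ∈ X ↔ t e ∈ X := by
        intro e
        by_contra h
        have := (mem_cut s t X e).2 h
        rw [h0] at this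
        exact Finset.notMem_empty e this
      have h0'' : ∀ e, s e ∈ Xᶜ ↔ t e ∈ Xᶜ := fun e => not_congr (h0' e)
      obtain ⟨b, hbT, hbX⟩ := hX2
      obtain ⟨e1, he1⟩ : (cut s t {u}).Nonempty := Finset.card_pos.mp (by omega)
      have hsX : ∀ e ∈ cut s t {u}, s e ∈ X := by
        intro e he
        rcases hinc e he with h | h
        · rw [h]; exact huX
        · exact (h0' e).2 (by rw [h]; exact huX)
      have hcu : cut (mg X u ∘ s) (mg X u ∘ t) {u} = cut s t {u} := by
        ext e
        rw [mem_cut, mem_cut]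
        simp only [Function.comp_apply, Set.mem_singleton_iff]
        by_cases hs : s e ∈ X
        · rw [mg_in hs, mg_in ((h0' e).1 hs)]
        · have ht : t e ∉ X := fun h => hs ((h0' e).2 h)
          rw [mg_out hs, mg_out ht]
          have h6 : s e ≠ u := fun h => hs (by rw [h]; exact huX)
          have h7 : t e ≠ u := fun h => ht (by rw [h]; exact huX)
          tauto
      obtain ⟨f1, hf1, hx1⟩ := side1 u huX huT (W0 s t X u h0') hcu (fun e he => by
        rw [mg_in (hsX e he)])
      obtain ⟨f2, hf2, -⟩ := half Xᶜ b hbX hbT (W0 s t Xᶜ b h0'') e1 0 (by norm_num)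
      refine ⟨fun e => if s e ∈ X then f1 e else f2 e, ⟨fun e => ?_, fun v hv => ?_⟩, ?_⟩
      · dsimp only
        split_ifs
        · exact hf1.1 e
        · exact hf2.1 e
      · by_cases hvX : v ∈ X
        · rw [bd0 s t X u h0' (fun e => lv (if s e ∈ X then f1 e else f2 e)) (fun e => lv (f1 e))
            (fun e he => by rw [if_pos he]) v hvX,
            bd0 s t X u h0' (fun e => cc (if s e ∈ X then f1 e else f2 e)) (fun e => cc (f1 e))
            (fun e he => by rw [if_pos he]) v hvX]
          exact hf1.2 v ⟨hv, hvX⟩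
        · rw [bd0 s t Xᶜ b h0'' (fun e => lv (if s e ∈ X then f1 e else f2 e))
            (fun e => lv (f2 e)) (fun e he => by rw [if_neg he]) v hvX,
            bd0 s t Xᶜ b h0'' (fun e => cc (if s e ∈ X then f1 e else f2 e))
            (fun e => cc (f2 e)) (fun e he => by rw [if_neg he]) v hvX]
          exact hf2.2 v ⟨hv, hvX⟩
      · intro e he
        dsimp only
        rw [if_pos (hsX e he)]
        exact hx1 e he
    · have ends : ∀ e ∈ cut s t X, ∃ a w, a ∈ X ∧ w ∉ X ∧
          ((s e = a ∧ t e = w) ∨ (s e = w ∧ t e = a)) := by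
        intro e he
        rw [mem_cut] at he
        by_cases hs : s e ∈ X
        · exact ⟨s e, t e, hs, fun h => he ⟨fun _ => h, fun _ => hs⟩, Or.inl ⟨rfl, rfl⟩⟩
        · have ht : t e ∈ X := by
            by_contra h
            exact he ⟨fun h' => absurd h' hs, fun h' => absurd h' h⟩
          exact ⟨t e, s e, ht, hs, Or.inr ⟨rfl, rfl⟩⟩
      -- one of the edges of the cut is not incident with `u`
      obtain ⟨e0, f0, hne, hcut, heu⟩ : ∃ e0 f0, e0 ≠ f0 ∧ cut s t X = {e0, f0} ∧
          e0 ∉ cut s t {u} := by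
        obtain ⟨e0, f0, hne, hcut⟩ := Finset.card_eq_two.1 h2
        by_cases h4 : e0 ∈ cut s t {u}
        · by_cases h5 : f0 ∈ cut s t {u}
          · exfalso
            refine hbr (X \ {u}) ?_
            have h6 : cut s t (X \ {u}) = cut s t {u} \ {e0, f0} := by
              ext e
              rw [Finset.mem_sdiff, ← hcut, mem_cut, mem_cut, mem_cut]
              simp only [Set.mem_sdiff, Set.mem_singleton_iff]
              by_cases h7 : e ∈ cut s t X
              · have h8 : s e = u ∨ t e = u := by
                  rw [hcut, Finset.mem_insert, Finset.mem_singleton] at h7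
                  rcases h7 with rfl | rfl
                  · exact hinc _ h4
                  · exact hinc _ h5
                rw [mem_cut] at h7
                rcases h8 with h8 | h8
                · have h9 : t e ∉ X := fun h => h7 ⟨fun _ => h, fun _ => by rw [h8]; exact huX⟩
                  tauto
                · have h9 : s e ∉ X := fun h => h7 ⟨fun _ => by rw [h8]; exact huX, fun _ => h⟩
                  tauto
              · rw [mem_cut, not_not] at h7
                by_cases h8 : s e = u
                · have h9 : t e ∈ X := h7.1 (by rw [h8]; exact huX)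
                  tauto
                · by_cases h9 : t e = u
                  · have h10 : s e ∈ X := h7.2 (by rw [h9]; exact huX)
                    tauto
                  · tauto
            rw [h6, Finset.card_sdiff_of_subset, h3, Finset.card_pair hne]
            intro e he
            rw [Finset.mem_insert, Finset.mem_singleton] at he
            rcases he with rfl | rfl
            · exact h4
            · exact h5
          · exact ⟨f0, e0, hne.symm, by rw [hcut]; exact Finset.pair_comm _ _, h5⟩
        · exact ⟨e0, f0, hne, hcut, h4⟩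
      obtain ⟨a, w, ha, hw, he0⟩ := ends e0 (by rw [hcut]; simp)
      obtain ⟨a', w', ha', hw', hf0⟩ := ends f0 (by rw [hcut]; simp)
      have hau : a ≠ u := by
        rintro rfl
        refine heu ?_
        rw [mem_cut]
        simp only [Set.mem_singleton_iff]
        have hwa : w ≠ a := fun h => hw (h ▸ ha)
        rcases he0 with ⟨h4, h5⟩ | ⟨h4, h5⟩
        · exact fun h => hwa (h5 ▸ (h.1 h4))
        · exact fun h => hwa (h4 ▸ (h.2 h5))
      have hoth : ∀ e, e ≠ e0 → e ≠ f0 → (s e ∈ X ↔ t e ∈ X) := by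
        intro e h1 h2'
        by_contra h
        have := (mem_cut s t X e).2 h
        rw [hcut, Finset.mem_insert, Finset.mem_singleton] at this
        exact this.elim h1 h2'
      have hoth' : ∀ e, e ≠ e0 → e ≠ f0 → (s e ∈ Xᶜ ↔ t e ∈ Xᶜ) :=
        fun e h1 h2' => not_congr (hoth e h1 h2')
      have haT : a ∈ T.set := by
        rcases he0 with ⟨h4, _⟩ | ⟨_, h4⟩ <;> rw [← h4]
        · exact (hE e0).1
        · exact (hE e0).2
      have hwT : w ∈ T.set := by
        rcases he0 with ⟨_, h4⟩ | ⟨h4, _⟩ <;> rw [← h4]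
        · exact (hE e0).2
        · exact (hE e0).1
      have hmg : ∀ z, mg X a z = u ↔ z = u := by
        intro z
        by_cases h : z ∈ X
        · rw [mg_in h]
        · rw [mg_out h]
          exact ⟨fun h1 => absurd h1 hau, fun h1 => absurd (by rw [h1]; exact huX) h⟩
      have hcu : cut (mg X a ∘ s) (mg X a ∘ t) {u} = cut s t {u} := by
        ext e
        rw [mem_cut, mem_cut]
        simp only [Function.comp_apply, Set.mem_singleton_iff, hmg]
      obtain ⟨f1, hf1, hx1⟩ := side1 a ha haT
        (W2 s t X e0 f0 a w a' w' ha hw ha' hw' he0 hf0 hoth hbr) hcu (fun e _ => hmg _)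
      obtain ⟨f2, hf2, hff⟩ := half Xᶜ w hw hwT
        (W2 s t Xᶜ e0 f0 w a w' a' hw (fun h => h ha) hw' (fun h => h ha') he0.symm hf0.symm
          hoth' hbr) f0 (f1 f0) (hf1.1 f0)
      refine ⟨fun e => if e = e0 then (if (s e0 ∈ X ↔ s f0 ∈ X) then sw (f1 f0) else f1 f0)
        else if e = f0 then f1 f0 else if s e ∈ X then f1 e else f2 e,
        ⟨fun e => ?_, fun v hv => ?_⟩, ?_⟩
      · dsimp only
        split_ifs
        · exact sw_lt11 _ (hf1.1 f0)
        · exact hf1.1 f0
        · exact hf1.1 f0
        · exact hf1.1 e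
        · exact hf2.1 e
      · by_cases hvX : v ∈ X
        · exact side s t X e0 f0 a w a' w' hne ha hw ha' hw' he0 hf0 hoth _ f1
            (fun e h1 h2' hs => by rw [if_neg h1, if_neg h2', if_pos hs]) (hf1.1 f0)
            (if_pos rfl) (by rw [if_neg hne.symm, if_pos rfl]) v hvX
            (hf1.2 v ⟨hv, hvX⟩)
        · exact side s t Xᶜ e0 f0 w a w' a' hne hw (fun h => h ha) hw' (fun h => h ha') he0.symm
            hf0.symm hoth' _ f2 (fun e h1 h2' hs => by
            rw [if_neg h1, if_neg h2', if_neg hs]) (hf2.1 f0) (by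
            rw [if_pos rfl, hff]
            simp only [Set.mem_compl_iff, not_iff_not]) (by
            rw [if_neg hne.symm, if_pos rfl, hff]) v hvX (hf2.2 v ⟨hv, hvX⟩)
      · intro e he
        dsimp only
        have h4 : e ≠ e0 := fun h => heu (h ▸ he)
        rw [if_neg h4]
        by_cases h5 : e = f0
        · rw [if_pos h5, ← h5]
          exact hx1 e he
        · rw [if_neg h5, if_pos]
          · exact hx1 e he
          · rcases hinc e he with h | h
            · rw [h]; exact huX
            · exact (hoth e h4 h5).2 (by rw [h]; exact huX)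

end Pool.Agent.TH505.HR
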