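import Pool.Agent.TH505.HF.Main

/-! Prescribed letters at the edges of a vertex of degree three. -/

set_option autoImplicit false

open Finset

namespace Pool.Agent.TH505.HR

open Pool.Agent.TH505.HF
open Pool.Agent.TH505.OW (PM fc pa pb Rel pm_facts cut bd Ord mem_cut ord_card ord_perm Tr mg mg_in
  mg_out cut_mg dl dl_ne bd_dl size_pos prune W0 W2)

variable {V E : Type} [Fintype E]

theorem g3_all : ((List.range 11).all fun a => (List.range 11).all fun b =>
    (List.range 11).all fun c => !(decide (lv a + lv b + lv c = 0)) ||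
      !(decide ((cc a + cc b + cc c) % 2 = 0)) ||
      Nat.beq (Nat.mod (Nat.shiftRight (g3 (a + 16 * b + 256 * c)) 0) 2) 1) = true := by
  decide +kernel

theorem g3_bit (a b c : ℕ) (ha : a < 11) (hb : b < 11) (hc : c < 11)
    (h1 : lv a + lv b + lv c = 0) (h2 : (2 : ℤ) ∣ cc a + cc b + cc c) :
    (g3 (a + 16 * b + 256 * c)).testBit 0 = true := by
  have h := (List.all_eq_true.1 ((List.all_eq_true.1 ((List.all_eq_true.1 g3_all) a
    (List.mem_range.2 ha))) b (List.mem_range.2 hb))) c (List.mem_range.2 hc)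
  have h3 : (cc a + cc b + cc c) % 2 = 0 := Int.emod_eq_zero_of_dvd h2
  rw [decide_eq_true h1, decide_eq_true h3] at h
  simp only [Bool.not_true, Bool.false_or] at h
  exact bit_of _ _ h

theorem dg3 (a b c : ℕ) (ha : a < 16) (hb : b < 16) (hc : c < 16) :
    dg (a + 16 * b + 256 * c) 0 = a ∧ dg (a + 16 * b + 256 * c) 1 = b ∧
      dg (a + 16 * b + 256 * c) 2 = c := by
  rw [dg_eq, dg_eq, dg_eq]
  refine ⟨?_, ?_, ?_⟩ <;> norm_num <;> omega

theorem sum_ord (s t : E → V) (X : Set V) (k : ℕ) (o : ℕ → E) (ho : Ord s t X k o) (φ : E → ℤ) :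
    ∑ e ∈ cut s t X, φ e = ∑ i ∈ range k, φ (o i) := by
  classical
  have h1 : cut s t X = (range k).image o := by
    ext e
    rw [ho.2 e, Finset.mem_image]
    simp only [Finset.mem_range]
  rw [h1, Finset.sum_image]
  intro i hi j hj hij
  exact ho.1 i (Finset.mem_range.1 hi) j (Finset.mem_range.1 hj) hij

theorem good_ext (s t : E → V) (A : Set V) (hE : ∀ e, s e ∈ A ∧ t e ∈ A) (u : V) (f : E → ℕ)
    (hf : Good s t f (A \ {u})) : Good s t f A := by
  classical
  refine ⟨hf.1, ?_⟩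
  obtain ⟨S, hS⟩ : ∃ S : Finset V, S = (univ : Finset E).image s ∪ (univ : Finset E).image t :=
    ⟨_, rfl⟩
  have hs : ∀ e, s e ∈ S := fun e => by
    rw [hS, Finset.mem_union]; exact Or.inl (Finset.mem_image_of_mem s (Finset.mem_univ e))
  have ht : ∀ e, t e ∈ S := fun e => by
    rw [hS, Finset.mem_union]; exact Or.inr (Finset.mem_image_of_mem t (Finset.mem_univ e))
  have hST : ∀ v ∈ S, v ∈ A := by
    intro v hv
    rw [hS, Finset.mem_union, Finset.mem_image, Finset.mem_image] at hv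
    rcases hv with ⟨e', -, rfl⟩ | ⟨e', -, rfl⟩
    · exact (hE e').1
    · exact (hE e').2
  intro v hv
  by_cases hvu : v = u
  · subst hvu
    by_cases huS : v ∈ S
    · constructor
      · have h2 := total s t (fun e => lv (f e)) S hs ht
        rw [Finset.sum_eq_single_of_mem v huS (fun z hz hzv => (hf.2 z ⟨hST z hz, hzv⟩).1)] at h2
        exact h2
      · have h2 := total s t (fun e => cc (f e)) S hs ht
        rw [← Finset.add_sum_erase S _ huS] at h2
        have h3 : (2 : ℤ) ∣ ∑ z ∈ S.erase v, bd s t (fun e => cc (f e)) z :=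
          Finset.dvd_sum fun z hz =>
            (hf.2 z ⟨hST z (Finset.mem_of_mem_erase hz), Finset.ne_of_mem_erase hz⟩).2
        have h4 : bd s t (fun e => cc (f e)) v =
            - ∑ z ∈ S.erase v, bd s t (fun e => cc (f e)) z := by
          linarith
        rw [h4]
        exact (dvd_neg).2 h3
    · have h0 : ∀ φ : E → ℤ, bd s t φ v = 0 := by
        intro φ
        rw [bd_dl]
        refine Finset.sum_eq_zero fun e _ => ?_
        rw [dl_ne (fun h : s e = v => huS (h ▸ hs e)), dl_ne (fun h : t e = v => huS (h ▸ ht e)),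
          sub_self, mul_zero]
      rw [h0, h0]
      exact ⟨rfl, dvd_zero _⟩
  · exact hf.2 v ⟨hv, hvu⟩

theorem ov_flip (s t : E → V) (X : Set V) (u : V) (y : E → ℕ) (e : E)
    (h : s e ∈ X ↔ s e ≠ u) (hy : y e < 11) :
    ov s X y e = sw (ov s {u} y e) ∧ ov s X y e < 11 := by
  unfold ov
  by_cases h1 : s e = u
  · have h2 : s e ∉ X := fun h3 => (h.1 h3) h1
    rw [if_neg h2, if_pos (by simpa using h1)]
    exact ⟨rfl, sw_lt11 _ hy⟩
  · have h2 : s e ∈ X := h.2 h1
    rw [if_pos h2, if_neg (by simpa using h1)]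
    exact ⟨((sw_sw _ (by omega)).1).symm, hy⟩

/-- Graphs without cuts of size less than three. -/
theorem vert_three (s t : E → V) (T : Tr V) (hN : T.Nodup) (hW : T.Width s t 5)
    (hE : ∀ e, s e ∈ T.set ∧ t e ∈ T.set)
    (hC : ∀ Z : Set V, (∃ v ∈ T.set, v ∈ Z) → (∃ v ∈ T.set, v ∉ Z) → 3 ≤ (cut s t Z).card)
    (u : V) (huT : u ∈ T.set) (h3 : (cut s t {u}).card = 3) (y : E → ℕ)
    (hy : ∀ e ∈ cut s t {u}, y e < 11)
    (hs1 : ∑ e ∈ cut s t {u}, lv (ov s {u} y e) = 0)
    (hs2 : (2 : ℤ) ∣ ∑ e ∈ cut s t {u}, cc (y e)) :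
    ∃ f, Good s t f T.set ∧ ∀ e ∈ cut s t {u}, f e = y e := by
  classical
  obtain ⟨R, hR, nR, wR⟩ : ∃ R : Tr V, R.set = T.set \ {u} ∧ R.Nodup ∧ R.Width s t 5 := by
    cases T with
    | leaf v =>
      exfalso
      have h1 : cut s t {u} = ∅ := by
        ext e
        rw [mem_cut]
        have h2 : s e = v := (hE e).1
        have h4 : t e = v := (hE e).2
        rw [h2, h4]
        simp
      rw [h1] at h3
      simp at h3
    | node l r =>
      rcases huT with huT | huT
      · exact reroot s t (l.set ∪ r.set) hE 5 u l r hN.2.1 hN.2.2 hW.2.1 hW.2.2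
          (fun _ => Iff.rfl) hN.1 huT
      · exact reroot s t (l.set ∪ r.set) hE 5 u r l hN.2.2 hN.2.1 hW.2.2 hW.2.1
          (fun _ => or_comm) hN.1.symm huT
  have huR : u ∉ R.set := by rw [hR]; exact fun h => h.2 rfl
  have hcutR : cut s t R.set = cut s t {u} := by
    refine cut_compl s t T.set {u} R.set hE fun v hv => ?_
    rw [hR]
    exact ⟨fun h => h.2, fun h => ⟨hv, h⟩⟩
  have h1 := keyT s t T.set hC R nR wR (by rw [hR]; exact Set.sdiff_subset) ⟨u, huT, huR⟩
  rw [hcutR, h3] at h1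
  obtain ⟨o, ho, g, hg, hS⟩ : HasF s t R.set 3 1 g3 := by
    rcases h1 with ⟨-, h⟩ | ⟨h, -⟩ | ⟨h, -⟩
    · exact h
    · omega
    · omega
  obtain rfl : g = 0 := by omega
  have hsR : ∀ e, s e ∈ R.set ↔ s e ≠ u := by
    intro e
    rw [hR]
    exact ⟨fun h => h.2, fun h => ⟨(hE e).1, h⟩⟩
  have hmem : ∀ i < 3, o i ∈ cut s t {u} := by
    intro i hi
    rw [← hcutR]
    exact (ho.2 _).2 ⟨i, hi, rfl⟩
  have hfl : ∀ i < 3, ov s R.set y (o i) = sw (ov s {u} y (o i)) ∧ ov s R.set y (o i) < 11 :=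
    fun i hi => ov_flip s t R.set u y (o i) (hsR _) (hy _ (hmem i hi))
  have e1 : lv (ov s R.set y (o 0)) + lv (ov s R.set y (o 1)) + lv (ov s R.set y (o 2)) = 0 := by
    have h5 := hs1
    rw [← hcutR, sum_ord s t R.set 3 o ho, Finset.sum_range_succ, Finset.sum_range_succ,
      Finset.sum_range_succ, Finset.sum_range_zero, zero_add] at h5
    have h6 : ∀ i < 3, lv (ov s R.set y (o i)) = - lv (ov s {u} y (o i)) := by
      intro i hi
      rw [(hfl i hi).1]
      have h7 : ov s {u} y (o i) < 11 := by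
        unfold ov
        split_ifs
        · exact hy _ (hmem i hi)
        · exact sw_lt11 _ (hy _ (hmem i hi))
      exact lv_sw _ h7
    rw [h6 0 (by norm_num), h6 1 (by norm_num), h6 2 (by norm_num)]
    linarith
  have e2 : (2 : ℤ) ∣ cc (ov s R.set y (o 0)) + cc (ov s R.set y (o 1)) +
      cc (ov s R.set y (o 2)) := by
    have h5 := hs2
    rw [← hcutR, sum_ord s t R.set 3 o ho, Finset.sum_range_succ, Finset.sum_range_succ,
      Finset.sum_range_succ, Finset.sum_range_zero, zero_add] at h5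
    have h6 : ∀ i < 3, cc (ov s R.set y (o i)) = cc (y (o i)) := by
      intro i hi
      unfold ov
      split_ifs
      · rfl
      · exact cc_sw _ (hy _ (hmem i hi))
    rw [h6 0 (by norm_num), h6 1 (by norm_num), h6 2 (by norm_num)]
    exact h5
  have hb := g3_bit _ _ _ (hfl 0 (by norm_num)).2 (hfl 1 (by norm_num)).2
    (hfl 2 (by norm_num)).2 e1 e2
  obtain ⟨f, hf, hov⟩ := hS _ hb
  have h7 := dg3 (ov s R.set y (o 0)) (ov s R.set y (o 1)) (ov s R.set y (o 2))
    (by have := (hfl 0 (by norm_num)).2; omega) (by have := (hfl 1 (by norm_num)).2; omega)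
    (by have := (hfl 2 (by norm_num)).2; omega)
  have h8 : ∀ i < 3, ov s R.set f (o i) = ov s R.set y (o i) := by
    intro i hi
    rw [hov i hi]
    rcases (show i = 0 ∨ i = 1 ∨ i = 2 by omega) with rfl | rfl | rfl
    · exact h7.1
    · exact h7.2.1
    · exact h7.2.2
  refine ⟨f, ?_, ?_⟩
  · refine good_ext s t T.set hE u f ?_
    rw [← hR]
    exact hf
  · intro e he
    rw [← hcutR] at he
    obtain ⟨i, hi, rfl⟩ := (ho.2 e).1 he
    have h9 := h8 i hi
    unfold ov at h9
    split_ifs at h9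
    · exact h9
    · have h10 := congrArg sw h9
      have h11 := hf.1 (o i)
      have h12 := hy _ (hmem i hi)
      rw [(sw_sw _ (by omega)).1, (sw_sw _ (by omega)).1] at h10
      exact h10

end Pool.Agent.TH505.HR
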